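import Pool.Agent.V7H44.HF.Fin

/-! Counting the extensions with different orders. -/

set_option autoImplicit false
open Classical

namespace Pool.Agent.V7H44.HF

open Filter Topology NumberField IsDedekindDomain
open Pool.Agent.TH322.BC.Edge (MinimalModels size HasOrder)
open Pool.Agent.Y722.EP (IsModular)
open Pool.Agent.X288.L2
open scoped TensorProduct

section
variable {K : Type} [Field K] [NumberField K] {a b : ℤ} (hab : 4 * a ^ 3 + 27 * b ^ 2 ≠ 0)
  (hmod : IsModular a b)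

include hab hmod in
theorem count {ι : Type} [Fintype ι] (L : ι → Type)
    [∀ j, Field (L j)] [∀ j, NumberField (L j)] [∀ j, Algebra K (L j)]
    {V₀ : HeightOneSpectrum (𝓞 K) → WeierstrassCurve (𝓞 K)} (hV₀ : MinimalModels (EC K a b) V₀)
    {V : ∀ j, HeightOneSpectrum (𝓞 (L j)) → WeierstrassCurve (𝓞 (L j))}
    (hV : ∀ j, MinimalModels (EC (L j) a b) (V j))
    (hdisj : ∀ j k, j ≠ k → IsField (L j ⊗[K] L k))
    {r : ℕ} (hr : ∀ j, 1 < Module.finrank K (L j) ∧ pairOrbits K (L j) ≤ r + 1)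
    (D : Finset ι) (t y : ι → ℝ)
    (hy : ∀ j ∈ D, Tendsto (fun ε => size (V j) (t j) ε - size V₀ (t j) ε) (𝓝[>] 0) (𝓝 (y j)))
    (h1 : ∀ j ∈ D, 1 ≤ y j ^ 2) :
    D.card ≤ r * N4 K ∧
    ((∀ j ∈ D, t j ≠ 0) → 2 * D.card ≤ r * N4 K) := by
  rcases D.eq_empty_or_nonempty with hD | ⟨j₀, hj₀⟩
  · rw [hD]
    simp
  have hr1 : ∀ j, (1 : ℝ) ≤ (pairOrbits K (L j) : ℝ) - 1 ∧ (pairOrbits K (L j) : ℝ) - 1 ≤ r := by
    intro j
    have h2 := two_le_pairOrbits K (L j) (hr j).1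
    have h3 : (2 : ℝ) ≤ pairOrbits K (L j) := by exact_mod_cast h2
    have h4 : (pairOrbits K (L j) : ℝ) ≤ r + 1 := by exact_mod_cast (hr j).2
    constructor <;> linarith
  have hr0 : (0 : ℝ) < r := by
    have := hr1 j₀
    linarith
  have hterm : ∀ j ∈ D, (r : ℝ)⁻¹ ≤ y j ^ 2 / ((pairOrbits K (L j) : ℝ) - 1) := by
    intro j hj
    obtain ⟨h2, h3⟩ := hr1 j
    rw [inv_eq_one_div, div_le_div_iff₀ hr0 (by linarith), one_mul]
    calc (pairOrbits K (L j) : ℝ) - 1 ≤ 1 * r := by linarith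
      _ ≤ y j ^ 2 * r := mul_le_mul_of_nonneg_right (h1 j hj) hr0.le
  have hsum : (D.card : ℝ) * (r : ℝ)⁻¹ ≤ ∑ j ∈ D, y j ^ 2 / ((pairOrbits K (L j) : ℝ) - 1) := by
    have := Finset.card_nsmul_le_sum D _ _ hterm
    rwa [nsmul_eq_mul] at this
  have hinj : ∀ s : ℝ, Set.InjOn (fun j : ι => (j, s * t j)) (D : Set ι) :=
    fun s j _ k _ h => congrArg Prod.fst h
  have hone : ∀ s : ℝ, s = 1 ∨ s = -1 → ∀ j ∈ D,
      Tendsto (fun ε => size (V j) (s * t j) ε - size V₀ (s * t j) ε) (𝓝[>] 0) (𝓝 (y j)) := by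
    intro s hs j hj
    rcases hs with rfl | rfl
    · rw [one_mul]
      exact hy j hj
    · refine (hy j hj).congr fun ε => ?_
      rw [neg_one_mul, size_neg, size_neg]
  constructor
  · have h2 := bessel_lims hab hmod L hV₀ hV hdisj ∅ (D.image fun j => (j, 1 * t j))
      (fun _ => 0) (fun z => y z.1) (fun τ hτ => absurd hτ (Finset.notMem_empty τ)) (fun z hz => by
        rw [Finset.mem_image] at hz
        obtain ⟨j, hj, rfl⟩ := hz
        exact hone 1 (Or.inl rfl) j hj)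
    rw [Finset.sum_empty, zero_add, Finset.sum_image (hinj 1)] at h2
    have h3 := hsum.trans h2
    rw [mul_inv_le_iff₀ hr0] at h3
    have h4 : ((D.card : ℕ) : ℝ) ≤ ((r * N4 K : ℕ) : ℝ) := by
      push_cast
      linarith
    exact_mod_cast h4
  · intro ht
    have hdis : Disjoint (D.image fun j => (j, 1 * t j)) (D.image fun j => (j, (-1) * t j)) := by
      rw [Finset.disjoint_left]
      rintro z hz hz'
      rw [Finset.mem_image] at hz hz'
      obtain ⟨j, hj, rfl⟩ := hz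
      obtain ⟨k, hk, h5⟩ := hz'
      have h6 : k = j := congrArg Prod.fst h5
      have h7 : (-1) * t k = 1 * t j := congrArg Prod.snd h5
      rw [h6] at h7
      exact ht j hj (by linarith)
    have h2 := bessel_lims hab hmod L hV₀ hV hdisj ∅
      ((D.image fun j => (j, 1 * t j)) ∪ (D.image fun j => (j, (-1) * t j)))
      (fun _ => 0) (fun z => y z.1) (fun τ hτ => absurd hτ (Finset.notMem_empty τ)) (fun z hz => by
        rw [Finset.mem_union, Finset.mem_image, Finset.mem_image] at hz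
        rcases hz with ⟨j, hj, rfl⟩ | ⟨j, hj, rfl⟩
        · exact hone 1 (Or.inl rfl) j hj
        · exact hone (-1) (Or.inr rfl) j hj)
    rw [Finset.sum_empty, zero_add, Finset.sum_union hdis, Finset.sum_image (hinj 1),
      Finset.sum_image (hinj (-1))] at h2
    have h3 : (2 * (D.card : ℝ)) * (r : ℝ)⁻¹ ≤ N4 K := by
      have e : (2 * (D.card : ℝ)) * (r : ℝ)⁻¹ = (D.card : ℝ) * (r : ℝ)⁻¹ +
        (D.card : ℝ) * (r : ℝ)⁻¹ := by ring
      rw [e]
      exact (add_le_add hsum hsum).trans h2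
    rw [mul_inv_le_iff₀ hr0] at h3
    have h4 : ((2 * D.card : ℕ) : ℝ) ≤ ((r * N4 K : ℕ) : ℝ) := by
      push_cast
      linarith
    exact_mod_cast h4

include hab hmod in
/-- the points of the line where the order over `K` is not zero -/
theorem count_points {V₀ : HeightOneSpectrum (𝓞 K) → WeierstrassCurve (𝓞 K)}
    (hV₀ : MinimalModels (EC K a b) V₀) :
    {τ : ℝ | ∃ m : ℤ, m ≠ 0 ∧ HasOrder V₀ τ m}.encard ≤ N4 K := by
  set A : Set ℝ := {τ : ℝ | ∃ m : ℤ, m ≠ 0 ∧ HasOrder V₀ τ m} with hA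
  have hA' : ∀ τ : ℝ, τ ∈ A → ∃ m : ℤ, m ≠ 0 ∧ HasOrder V₀ τ m := fun τ h => h
  choose! m hm0 hm using hA'
  have hfin : ∀ T : Finset ℝ, (T : Set ℝ) ⊆ A → T.card ≤ N4 K := by
    intro T hT
    have h2 := bessel_lims (ι := Empty) hab hmod (fun _ => K) hV₀
      (V := fun _ => V₀) (fun j => j.elim) (fun j => j.elim) T ∅
      (fun τ => -(m τ : ℝ)) (fun _ => 0)
      (fun τ hτ => order_lim (K := K) hab hV₀ (hm τ (hT hτ))) (fun z hz => absurd hz (Finset.notMem_empty z))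
    rw [Finset.sum_empty, add_zero] at h2
    have h3 : ((T.card : ℕ) : ℝ) ≤ ∑ τ ∈ T, (-(m τ : ℝ)) ^ 2 := by
      have := Finset.card_nsmul_le_sum T (fun τ => (-(m τ : ℝ)) ^ 2) 1 (fun τ hτ => by
        rw [neg_sq]
        have h4 := Int.one_le_abs (hm0 τ (hT hτ))
        have h5 : (1 : ℝ) ≤ |(m τ : ℝ)| := by exact_mod_cast h4
        have h6 := pow_le_pow_left₀ zero_le_one h5 2
        rw [one_pow, sq_abs] at h6
        exact h6)
      rwa [nsmul_eq_mul, mul_one] at this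
    exact_mod_cast h3.trans h2
  by_contra hcon
  push Not at hcon
  have h7 : ((N4 K + 1 : ℕ) : ℕ∞) ≤ A.encard := by
    rw [Nat.cast_add, Nat.cast_one]
    exact Order.add_one_le_of_lt hcon
  obtain ⟨B, hBA, hB⟩ := Set.exists_subset_encard_eq h7
  have hBf : B.Finite := by
    refine Set.finite_of_encard_eq_coe hB
  have h8 := hfin hBf.toFinset (by rw [hBf.coe_toFinset]; exact hBA)
  have h9 : ((hBf.toFinset.card : ℕ) : ℕ∞) = B.encard := by
    rw [hBf.encard_eq_coe_toFinset_card]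
  rw [hB] at h9
  have h10 : hBf.toFinset.card = N4 K + 1 := by exact_mod_cast h9
  omega

end

end Pool.Agent.V7H44.HF
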