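import Pool.Agent.V7H44.HF.Gen

/-! Linearly disjoint extensions of a number field: mean values of the products of the numbers of the
fixed embeddings. -/

set_option autoImplicit false
open Classical

namespace Pool.Agent.V7H44.HF

open Complex Filter Topology ComplexConjugate NumberField IsDedekindDomain Asymptotics
  Pool.Agent.W401.Cheb Pool.Agent.W540.BE Pool.Agent.W353.L1 Pool.Agent.W353.NF
open Pool.Agent.TH322.BC
open Pool.Agent.X288.L2
open scoped TensorProduct

/-- the action of a group on pairs -/
def act2 {G Y Z : Type} [Group G] (a : G →* Equiv.Perm Y) (b : G →* Equiv.Perm Z) :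
    G →* Equiv.Perm (Y × Z) where
  toFun g := Equiv.prodCongr (a g) (b g)
  map_one' := by rw [map_one, map_one]; rfl
  map_mul' g h := by rw [map_mul, map_mul]; rfl

theorem act2_card {Y Z : Type} (π : Equiv.Perm Y) (ρ : Equiv.Perm Z) :
    (Nat.card {z // (Equiv.prodCongr π ρ) z = z}) =
      Nat.card {y // π y = y} * Nat.card {y // ρ y = y} := by
  rw [← Nat.card_prod]
  exact Nat.card_congr
    { toFun := fun z => (⟨z.1.1, congrArg Prod.fst z.2⟩, ⟨z.1.2, congrArg Prod.snd z.2⟩)
      invFun := fun p => ⟨(p.1.1, p.2.1), Prod.ext p.1.2 p.2.2⟩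
      left_inv := fun z => rfl
      right_inv := fun p => rfl }

section
variable {K F F' : Type} [Field K] [NumberField K] [Field F] [NumberField F] [Algebra K F]
  [Field F'] [NumberField F'] [Algebra K F']

/-- the homomorphism given by a pair of embeddings -/
noncomputable def pairHom (i : F →ₐ[K] AlgebraicClosure K) (l : F' →ₐ[K] AlgebraicClosure K) :
    (F ⊗[K] F') →ₐ[K] AlgebraicClosure K :=
  Algebra.TensorProduct.lift i l (fun _ _ => Commute.all _ _)

omit [NumberField K] [NumberField F] [NumberField F'] in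
theorem pairHom_left (i : F →ₐ[K] AlgebraicClosure K) (l : F' →ₐ[K] AlgebraicClosure K) (x : F) :
    pairHom i l (x ⊗ₜ[K] (1 : F')) = i x := by
  unfold pairHom
  rw [Algebra.TensorProduct.lift_tmul, map_one, mul_one]

omit [NumberField K] [NumberField F] [NumberField F'] in
theorem pairHom_right (i : F →ₐ[K] AlgebraicClosure K) (l : F' →ₐ[K] AlgebraicClosure K)
    (x : F') : pairHom i l ((1 : F) ⊗ₜ[K] x) = l x := by
  unfold pairHom
  rw [Algebra.TensorProduct.lift_tmul, map_one, one_mul]

/-- if the tensor product is a field, then the Galois group acts transitively on the pairs of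
embeddings -/
theorem trans_of_isField (h : IsField (F ⊗[K] F')) (i i' : F →ₐ[K] AlgebraicClosure K)
    (l l' : F' →ₐ[K] AlgebraicClosure K) :
    ∃ g : GK K, act K F g i = i' ∧ act K F' g l = l' := by
  have key : ∃ g : AlgebraicClosure K →ₐ[K] AlgebraicClosure K,
      ∀ z, g (pairHom i l z) = pairHom i' l' z := by
    let _ : Field (F ⊗[K] F') := h.toField
    let _ : Algebra (F ⊗[K] F') (AlgebraicClosure K) :=
      ((pairHom i l : (F ⊗[K] F') →ₐ[K] AlgebraicClosure K) :
        (F ⊗[K] F') →+* AlgebraicClosure K).toAlgebra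
    have : IsScalarTower K (F ⊗[K] F') (AlgebraicClosure K) :=
      IsScalarTower.of_algHom (pairHom i l)
    have hal : Algebra.IsAlgebraic (F ⊗[K] F') (AlgebraicClosure K) :=
      Algebra.IsAlgebraic.tower_top (K := K) (F ⊗[K] F')
    obtain ⟨g, hg⟩ := IsAlgClosed.surjective_domRestrict_of_isAlgebraic (K := K)
      (L := (F ⊗[K] F')) (E := AlgebraicClosure K) (M := AlgebraicClosure K) (pairHom i' l')
    exact ⟨g, fun z => DFunLike.congr_fun hg z⟩
  obtain ⟨g, hg⟩ := key
  refine ⟨AlgEquiv.ofBijective g (Algebra.IsAlgebraic.algHom_bijective g), ?_, ?_⟩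
  · rw [act_apply]
    refine AlgHom.ext fun x => ?_
    have h1 := hg (x ⊗ₜ[K] (1 : F'))
    rw [pairHom_left, pairHom_left] at h1
    exact h1
  · rw [act_apply]
    refine AlgHom.ext fun x => ?_
    have h1 := hg ((1 : F) ⊗ₜ[K] x)
    rw [pairHom_right, pairHom_right] at h1
    exact h1

variable {U : Subgroup (GK K)} [U.Normal] [Finite (GK K ⧸ U)]

theorem avR_fixn (hF : ∀ u ∈ U, act K F u = 1) :
    avR U (fun q => (fixn K F q.out : ℝ)) = 1 := by
  have h1 := avR_fix (U := U) (act K F) hF ⊤ (fun x y => by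
    constructor
    · intro _
      exact act_trans K F x y
    · intro _
      trivial)
  have h2 : Nat.card (Quotient (⊤ : Setoid (F →ₐ[K] AlgebraicClosure K))) = 1 := by
    rw [Nat.card_eq_one_iff_unique]
    refine ⟨⟨fun a b => ?_⟩, ⟨Quotient.mk _ (Classical.arbitrary _)⟩⟩
    induction a using Quotient.inductionOn
    induction b using Quotient.inductionOn
    exact Quotient.sound trivial
  rw [h2, Nat.cast_one] at h1
  exact h1

theorem avR_fixn_mul (hF : ∀ u ∈ U, act K F u = 1) (hF' : ∀ u ∈ U, act K F' u = 1)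
    (h : IsField (F ⊗[K] F')) :
    avR U (fun q => (fixn K F q.out : ℝ) * (fixn K F' q.out : ℝ)) = 1 := by
  have h1 := avR_fix (U := U) (act2 (act K F) (act K F')) (fun u hu => by
    change Equiv.prodCongr (act K F u) (act K F' u) = 1
    rw [hF u hu, hF' u hu]
    rfl) ⊤ (fun x y => by
    constructor
    · intro _
      obtain ⟨g, h1, h2⟩ := trans_of_isField h x.1 y.1 x.2 y.2
      exact ⟨g, Prod.ext h1 h2⟩
    · intro _
      trivial)
  have h2 : Nat.card (Quotient (⊤ : Setoid ((F →ₐ[K] AlgebraicClosure K) ×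
      (F' →ₐ[K] AlgebraicClosure K)))) = 1 := by
    rw [Nat.card_eq_one_iff_unique]
    refine ⟨⟨fun a b => ?_⟩, ⟨Quotient.mk _ (Classical.arbitrary _)⟩⟩
    induction a using Quotient.inductionOn
    induction b using Quotient.inductionOn
    exact Quotient.sound trivial
  rw [h2, Nat.cast_one] at h1
  rw [← h1]
  congr 1
  funext q
  have h3 := act2_card (act K F q.out) (act K F' q.out)
  have h4 : (Nat.card {z // act2 (act K F) (act K F') q.out z = z}) =
      fixn K F q.out * fixn K F' q.out := h3
  rw [h4]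
  push_cast
  rfl

theorem avR_fixn_sq (hF : ∀ u ∈ U, act K F u = 1) :
    avR U (fun q => (fixn K F q.out : ℝ) * (fixn K F q.out : ℝ)) = pairOrbits K F := by
  have h1 := avR_fix (U := U) (act2 (act K F) (act K F)) (fun u hu => by
    change Equiv.prodCongr (act K F u) (act K F u) = 1
    rw [hF u hu]
    rfl) (pairRel K F) (fun x y => by
    constructor
    · rintro ⟨g, h1, h2⟩
      exact ⟨g, Prod.ext h1 h2⟩
    · rintro ⟨g, hg⟩
      exact ⟨g, congrArg Prod.fst hg, congrArg Prod.snd hg⟩)
  have h0 : ((pairOrbits K F : ℕ) : ℝ) = Nat.card (Quotient (pairRel K F)) := rfl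
  rw [h0, ← h1]
  congr 1
  funext q
  have h3 := act2_card (act K F q.out) (act K F q.out)
  have h4 : (Nat.card {z // act2 (act K F) (act K F) q.out z = z}) =
      fixn K F q.out * fixn K F q.out := h3
  rw [h4]
  push_cast
  rfl

theorem pairOrbits_pos (K F : Type) [Field K] [NumberField K] [Field F] [NumberField F]
    [Algebra K F] : 1 ≤ pairOrbits K F := by
  have : Nonempty (Quotient (pairRel K F)) :=
    ⟨Quotient.mk _ (Classical.arbitrary _, Classical.arbitrary _)⟩
  have : Finite (Quotient (pairRel K F)) := Quotient.finite _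
  exact Nat.card_pos

/-- the difference of the permutation character and the trivial character -/
noncomputable def psi (K F : Type) [Field K] [NumberField K] [Field F] [NumberField F]
    [Algebra K F] (g : GK K) : ℝ := (fixn K F g : ℝ) - 1

omit [U.Normal] [Finite (GK K ⧸ U)] in
theorem psi_cls (hF : ∀ u ∈ U, act K F u = 1) : Cls U (psi K F) :=
  ⟨fun g u hu => by
      unfold psi
      rw [fixn_mul_ker K F g u (hF u hu)],
    fun g ρ => by
      unfold psi
      rw [fixn_conj],
    fun g => by
      unfold psi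
      rw [fixn_inv]⟩

theorem avR_psi_mul (hF : ∀ u ∈ U, act K F u = 1) (hF' : ∀ u ∈ U, act K F' u = 1)
    (h : IsField (F ⊗[K] F')) : avR U (fun q => psi K F q.out * psi K F' q.out) = 0 := by
  have e : (fun q : GK K ⧸ U => psi K F q.out * psi K F' q.out) = fun q =>
      (fixn K F q.out : ℝ) * (fixn K F' q.out : ℝ) + ((-1) * (fixn K F q.out : ℝ) +
        ((-1) * (fixn K F' q.out : ℝ) + 1)) := by
    funext q
    unfold psi
    ring
  rw [e, avR_add, avR_add, avR_add, avR_const_mul, avR_const_mul, avR_one, avR_fixn hF,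
    avR_fixn hF', avR_fixn_mul hF hF' h]
  ring

theorem avR_psi_sq (hF : ∀ u ∈ U, act K F u = 1) :
    avR U (fun q => psi K F q.out * psi K F q.out) = pairOrbits K F - 1 := by
  have e : (fun q : GK K ⧸ U => psi K F q.out * psi K F q.out) = fun q =>
      (fixn K F q.out : ℝ) * (fixn K F q.out : ℝ) + ((-2) * (fixn K F q.out : ℝ) + 1) := by
    funext q
    unfold psi
    ring
  rw [e, avR_add, avR_add, avR_const_mul, avR_one, avR_fixn hF, avR_fixn_sq hF]
  ring

theorem avR_psi (hF : ∀ u ∈ U, act K F u = 1) : avR U (fun q => psi K F q.out) = 0 := by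
  have e : (fun q : GK K ⧸ U => psi K F q.out) = fun q => (fixn K F q.out : ℝ) + (-1) := by
    funext q
    unfold psi
    ring
  rw [e, avR_add, avR_one, avR_fixn hF]
  ring

end

end Pool.Agent.V7H44.HF
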