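import Pool.Agent.V7H44.HF.Main

/-! All the points of the line; counting. -/

set_option autoImplicit false
open Classical

namespace Pool.Agent.V7H44.HF

open Complex Filter Topology ComplexConjugate NumberField IsDedekindDomain Asymptotics
  Pool.Agent.W401.Cheb Pool.Agent.W540.BE Pool.Agent.W353.L1 Pool.Agent.W353.NF
open Pool.Agent.TH322.BC
open Pool.Agent.TH322.BC.Edge (TwistOver MinimalModels LSeries size HasOrder LimsupLE character
  character_eq orders lim_abs_le size_twist size_base coe_ne)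
open Pool.Agent.Y722.EP (IsModular)
open Pool.Agent.X288.L2
open scoped TensorProduct

/-! ### symmetry -/

theorem conj_cpow_nat (n : ℕ) (s : ℂ) : conj ((n : ℂ) ^ s) = (n : ℂ) ^ (conj s) := by
  by_cases hn : n = 0
  · subst hn
    by_cases hs : s = 0
    · subst hs
      simp
    · have hs' : conj s ≠ 0 := by
        intro h
        exact hs ((map_eq_zero _).1 h)
      rw [Nat.cast_zero, Complex.zero_cpow hs, Complex.zero_cpow hs', map_zero]
  · have h1 : ((n : ℂ)).arg ≠ Real.pi := by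
      rw [Complex.natCast_arg]
      exact Real.pi_pos.ne
    rw [Complex.cpow_conj _ _ h1, Complex.conj_natCast]

theorem LSeries_conj {F : Type} [Field F] [NumberField F]
    (V : HeightOneSpectrum (𝓞 F) → WeierstrassCurve (𝓞 F)) (s : ℂ) :
    Pool.Agent.TH322.BC.Edge.LSeries V (conj s) =
      conj (Pool.Agent.TH322.BC.Edge.LSeries V s) := by
  unfold Pool.Agent.TH322.BC.Edge.LSeries
  rw [Function.LeftInverse.map_tprod (g := starRingEnd ℂ) (g' := starRingEnd ℂ) _
    Complex.continuous_conj Complex.continuous_conj Complex.conj_conj]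
  refine tprod_congr fun v => ?_
  rw [map_inv₀, map_add, map_sub, map_one, map_mul, map_mul, conj_cpow_nat, conj_cpow_nat,
    map_neg, map_sub, map_one, map_mul, map_intCast]
  congr 5
  · split_ifs <;> simp
  · congr 2
    exact (Complex.conj_ofNat 2).symm

theorem size_neg {F : Type} [Field F] [NumberField F]
    (V : HeightOneSpectrum (𝓞 F) → WeierstrassCurve (𝓞 F)) (τ ε : ℝ) :
    size V (-τ) ε = size V τ ε := by
  unfold size
  congr 2
  have h1 : (3 / 2 + ((-τ : ℝ) : ℂ) * Complex.I + ε : ℂ) =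
      conj (3 / 2 + (τ : ℂ) * Complex.I + ε) := by
    simp only [map_add, map_mul, map_div₀, Complex.conj_ofReal, Complex.conj_I, Complex.conj_ofNat]
    push_cast
    ring
  rw [h1, LSeries_conj, Complex.norm_conj]

theorem size_abs {F : Type} [Field F] [NumberField F]
    (V : HeightOneSpectrum (𝓞 F) → WeierstrassCurve (𝓞 F)) (τ ε : ℝ) :
    size V |τ| ε = size V τ ε := by
  rcases abs_choice τ with h | h <;> rw [h]
  exact size_neg V τ ε

section
variable {K : Type} [Field K] [NumberField K] {a b : ℤ} (hab : 4 * a ^ 3 + 27 * b ^ 2 ≠ 0)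
  (hmod : IsModular a b)

theorem card_abs_le (H : Finset ℝ) (t : ℝ) :
    (((H.filter fun τ => |τ| = t).card : ℕ) : ℝ) ≤ (hw t t)⁻¹ := by
  rw [hw_self]
  by_cases ht : t = 0
  · rw [if_pos ht, inv_one]
    have h1 : (H.filter fun τ => |τ| = t) ⊆ {0} := by
      intro τ hτ
      rw [Finset.mem_filter, ht, abs_eq_zero] at hτ
      rw [Finset.mem_singleton]
      exact hτ.2
    have h2 := Finset.card_le_card h1
    rw [Finset.card_singleton] at h2
    exact_mod_cast h2
  · rw [if_neg ht]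
    have h1 : (H.filter fun τ => |τ| = t) ⊆ {t, -t} := by
      intro τ hτ
      rw [Finset.mem_filter] at hτ
      rw [Finset.mem_insert, Finset.mem_singleton]
      rcases abs_choice τ with h | h
      · left
        rw [← hτ.2, h]
      · right
        rw [← hτ.2, h, neg_neg]
    have h2 := (Finset.card_le_card h1).trans Finset.card_le_two
    have h3 : (((H.filter fun τ => |τ| = t).card : ℕ) : ℝ) ≤ 2 := by exact_mod_cast h2
    have h4 : ((1 / 2 : ℝ))⁻¹ = 2 := by norm_num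
    rw [h4]
    exact h3

include hab hmod in
/-- **Bessel's inequality for the sizes**, all real heights. -/
theorem bessel_line {ι : Type} [Fintype ι] (L : ι → Type)
    [∀ j, Field (L j)] [∀ j, NumberField (L j)] [∀ j, Algebra K (L j)]
    {V₀ : HeightOneSpectrum (𝓞 K) → WeierstrassCurve (𝓞 K)} (hV₀ : MinimalModels (EC K a b) V₀)
    {V : ∀ j, HeightOneSpectrum (𝓞 (L j)) → WeierstrassCurve (𝓞 (L j))}
    (hV : ∀ j, MinimalModels (EC (L j) a b) (V j))
    (hdisj : ∀ j k, j ≠ k → IsField (L j ⊗[K] L k))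
    (H : Finset ℝ) {η : ℝ} (hη : 0 < η) :
    ∀ᶠ ε : ℝ in 𝓝[>] 0, ∑ τ ∈ H, (size V₀ τ ε ^ 2 +
      ∑ j, (size (V j) τ ε - size V₀ τ ε) ^ 2 / ((pairOrbits K (L j) : ℝ) - 1)) ≤
      (N4 K : ℝ) + η := by
  have h1 := bessel_sizes hab hmod L hV₀ hV hdisj (H.image fun τ => |τ|) (fun t ht => by
    rw [Finset.mem_image] at ht
    obtain ⟨τ, -, rfl⟩ := ht
    exact abs_nonneg τ) hη
  refine h1.mono fun ε hε => le_trans ?_ hε
  set f : ℝ → ℝ := fun t => size V₀ t ε ^ 2 +
      ∑ j, (size (V j) t ε - size V₀ t ε) ^ 2 / ((pairOrbits K (L j) : ℝ) - 1) with hf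
  have hf0 : ∀ t, 0 ≤ f t := by
    intro t
    refine add_nonneg (sq_nonneg _) (Finset.sum_nonneg fun j _ => div_nonneg (sq_nonneg _) ?_)
    exact rO_nonneg L (some j)
  have e1 : ∑ τ ∈ H, f τ = ∑ τ ∈ H, f |τ| := by
    refine Finset.sum_congr rfl fun τ _ => ?_
    simp only [hf, size_abs]
  have e2 : ∑ τ ∈ H, (size V₀ τ ε ^ 2 +
      ∑ j, (size (V j) τ ε - size V₀ τ ε) ^ 2 / ((pairOrbits K (L j) : ℝ) - 1)) =
      ∑ τ ∈ H, f τ := rfl
  rw [e2, e1, Finset.sum_comp f (fun τ => |τ|)]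
  refine Finset.sum_le_sum fun t _ => ?_
  rw [nsmul_eq_mul]
  have e3 : ∑ o : Option ι, szO V₀ V t o ε ^ 2 / (hw t t * rO K L o) = (hw t t)⁻¹ * f t := by
    rw [Fintype.sum_option, hf, mul_add, Finset.mul_sum]
    congr 1
    · show size V₀ t ε ^ 2 / (hw t t * 1) = _
      rw [mul_one, div_eq_inv_mul]
    · refine Finset.sum_congr rfl fun j _ => ?_
      show (size (V j) t ε - size V₀ t ε) ^ 2 / (hw t t * ((pairOrbits K (L j) : ℝ) - 1)) = _
      rw [← div_div, div_eq_inv_mul, div_eq_inv_mul, div_eq_inv_mul]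
      ring
  rw [e3]
  exact mul_le_mul_of_nonneg_right (card_abs_le H t) (hf0 t)

include hab hmod in
/-- **Bessel's inequality for the orders**, all real heights, in terms of limits. -/
theorem bessel_lims {ι : Type} [Fintype ι] (L : ι → Type)
    [∀ j, Field (L j)] [∀ j, NumberField (L j)] [∀ j, Algebra K (L j)]
    {V₀ : HeightOneSpectrum (𝓞 K) → WeierstrassCurve (𝓞 K)} (hV₀ : MinimalModels (EC K a b) V₀)
    {V : ∀ j, HeightOneSpectrum (𝓞 (L j)) → WeierstrassCurve (𝓞 (L j))}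
    (hV : ∀ j, MinimalModels (EC (L j) a b) (V j))
    (hdisj : ∀ j k, j ≠ k → IsField (L j ⊗[K] L k))
    (T : Finset ℝ) (S : Finset (ι × ℝ)) (x : ℝ → ℝ) (y : ι × ℝ → ℝ)
    (hx : ∀ τ ∈ T, Tendsto (size V₀ τ) (𝓝[>] 0) (𝓝 (x τ)))
    (hy : ∀ z ∈ S, Tendsto (fun ε => size (V z.1) z.2 ε - size V₀ z.2 ε) (𝓝[>] 0) (𝓝 (y z))) :
    ∑ τ ∈ T, x τ ^ 2 + ∑ z ∈ S, y z ^ 2 / ((pairOrbits K (L z.1) : ℝ) - 1) ≤
      N4 K := by
  set H : Finset ℝ := T ∪ S.image Prod.snd with hHdef
  refine le_of_forall_pos_le_add fun η hη => ?_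
  have h1 := bessel_line hab hmod L hV₀ hV hdisj H hη
  have h2 : ∀ᶠ ε : ℝ in 𝓝[>] 0, ∑ τ ∈ T, size V₀ τ ε ^ 2 +
      ∑ z ∈ S, (size (V z.1) z.2 ε - size V₀ z.2 ε) ^ 2 /
        ((pairOrbits K (L z.1) : ℝ) - 1) ≤ (N4 K : ℝ) + η := by
    refine h1.mono fun ε hε => le_trans ?_ hε
    have e1 : ∑ τ ∈ H, (size V₀ τ ε ^ 2 +
        ∑ j, (size (V j) τ ε - size V₀ τ ε) ^ 2 / ((pairOrbits K (L j) : ℝ) - 1)) =
        ∑ τ ∈ H, size V₀ τ ε ^ 2 +
          ∑ z ∈ (Finset.univ : Finset ι) ×ˢ H, (size (V z.1) z.2 ε - size V₀ z.2 ε) ^ 2 /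
            ((pairOrbits K (L z.1) : ℝ) - 1) := by
      rw [Finset.sum_product_right, ← Finset.sum_add_distrib]
    rw [e1]
    refine add_le_add ?_ ?_
    · exact Finset.sum_le_sum_of_subset_of_nonneg Finset.subset_union_left
        fun τ _ _ => sq_nonneg _
    · refine Finset.sum_le_sum_of_subset_of_nonneg ?_ fun z _ _ => ?_
      · intro z hz
        rw [Finset.mem_product]
        exact ⟨Finset.mem_univ _, Finset.mem_union_right _ (Finset.mem_image_of_mem _ hz)⟩
      · exact div_nonneg (sq_nonneg _) (rO_nonneg L (some z.1))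
  have h3 : Tendsto (fun ε => ∑ τ ∈ T, size V₀ τ ε ^ 2 +
      ∑ z ∈ S, (size (V z.1) z.2 ε - size V₀ z.2 ε) ^ 2 /
        ((pairOrbits K (L z.1) : ℝ) - 1)) (𝓝[>] 0)
      (𝓝 (∑ τ ∈ T, x τ ^ 2 + ∑ z ∈ S, y z ^ 2 / ((pairOrbits K (L z.1) : ℝ) - 1))) := by
    refine Tendsto.add (tendsto_finsetSum _ fun τ hτ => ?_) (tendsto_finsetSum _ fun z hz => ?_)
    · exact (hx τ hτ).pow 2
    · exact ((hy z hz).pow 2).div_const _
  exact le_of_tendsto h3 h2

include hab in
theorem order_lim {F : Type} [Field F] [NumberField F] [Algebra K F]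
    {V : HeightOneSpectrum (𝓞 F) → WeierstrassCurve (𝓞 F)} (hV : MinimalModels (EC F a b) V)
    {τ : ℝ} {m : ℤ} (hm : HasOrder V τ m) : Tendsto (size V τ) (𝓝[>] 0) (𝓝 (-(m : ℝ))) :=
  orders (base_all (K := K) hab hV τ).1 hm

theorem lim_neg {F : Type} [Field F] [NumberField F]
    {V : HeightOneSpectrum (𝓞 F) → WeierstrassCurve (𝓞 F)} {τ x : ℝ}
    (h : Tendsto (size V τ) (𝓝[>] 0) (𝓝 x)) : Tendsto (size V (-τ)) (𝓝[>] 0) (𝓝 x) :=
  h.congr fun ε => (size_neg V τ ε).symm

end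

/-! ### the number of the orbits -/

theorem pairOrbits_le (K F : Type) [Field K] [NumberField K] [Field F] [NumberField F]
    [Algebra K F] : pairOrbits K F ≤ Module.finrank K F := by
  obtain ⟨i₀⟩ : Nonempty (F →ₐ[K] AlgebraicClosure K) := inferInstance
  have h1 : Function.Surjective (fun j : F →ₐ[K] AlgebraicClosure K =>
      (Quotient.mk (pairRel K F) (i₀, j))) := by
    intro q
    induction q using Quotient.inductionOn with
    | h z =>
      obtain ⟨g, hg⟩ := act_trans K F z.1 i₀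
      refine ⟨act K F g z.2, Quotient.sound (s := pairRel K F) ((pairRel K F).symm ?_)⟩
      exact ⟨g, hg, rfl⟩
  have h2 : Nat.card (Quotient (pairRel K F)) ≤ Nat.card (F →ₐ[K] AlgebraicClosure K) :=
    Nat.card_le_card_of_surjective _ h1
  have h3 : Nat.card (F →ₐ[K] AlgebraicClosure K) = Module.finrank K F := by
    rw [Nat.card_eq_fintype_card, AlgHom.card]
  rw [h3] at h2
  exact h2

theorem two_le_pairOrbits (K F : Type) [Field K] [NumberField K] [Field F] [NumberField F]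
    [Algebra K F] (h : 1 < Module.finrank K F) : 2 ≤ pairOrbits K F := by
  have hcard : Fintype.card (F →ₐ[K] AlgebraicClosure K) = Module.finrank K F :=
    AlgHom.card K F (AlgebraicClosure K)
  obtain ⟨i, j, hij⟩ := Fintype.one_lt_card_iff.1 (by rw [hcard]; exact h)
  have hne : (Quotient.mk (pairRel K F) (i, i)) ≠ Quotient.mk (pairRel K F) (i, j) := by
    intro h1
    obtain ⟨g, h2, h3⟩ := Quotient.exact h1
    exact hij (h2.symm.trans h3)
  have hfin : Finite (Quotient (pairRel K F)) := Quotient.finite _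
  have h4 : 1 < Nat.card (Quotient (pairRel K F)) := by
    rw [Finite.one_lt_card_iff_nontrivial]
    exact ⟨⟨_, _, hne⟩⟩
  exact h4

end Pool.Agent.V7H44.HF
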