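import Pool.Agent.X288.L2.Base

/-! Families of class functions over any number field: the inequality for the sizes, and Bessel's
inequality in the limit. -/

set_option autoImplicit false
open Classical

namespace Pool.Agent.V7H44.HF

open Complex Filter Topology ComplexConjugate NumberField IsDedekindDomain Asymptotics
  Pool.Agent.W401.Cheb Pool.Agent.W540.BE Pool.Agent.W353.L1 Pool.Agent.W353.NF
open Pool.Agent.W353.TP (HX sysH LL LL_tendsto)
open Pool.Agent.H341R2 (lam lam_tendsto sysK)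
open Pool.Agent.TH322.BC
open Pool.Agent.X288.L2

section
variable {K : Type} [Field K] [NumberField K] {U : Subgroup (GK K)}

/-- **Several class functions at several heights.** -/
theorem gen_ineq [U.Normal] (hU : IsOpen (U : Set (GK K))) [Finite (GK K ⧸ U)]
    {T : HX K → ℝ} {N : ℝ} (hT : ∀ x, |T x| ≤ N) {σ : HeightOneSpectrum (𝓞 K) → GK K}
    (hσ : ∀ v, IsFrob v (σ v)) {ι : Type} (S : Finset ι) {ψ : ι → GK K → ℝ}
    (hψ : ∀ k ∈ S, Cls U (ψ k)) (τ : ι → ℝ) {Y : ι → ℝ → ℝ}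
    (hY : ∀ k ∈ S, SzH T (fun v => ψ k (σ v) * cz (τ k) v) (Y k))
    {β : ℝ} (hβ : 0 ≤ β) (hsec : Sec T β) (c : ι → ℝ) {η : ℝ} (hη : 0 < η) :
    ∀ᶠ ε : ℝ in 𝓝[>] 0, (∑ k ∈ S, c k * Y k ε) ^ 2 ≤
      β * (∑ k ∈ S, ∑ l ∈ S, c k * c l *
        (hw (τ k) (τ l) * avR U fun q => ψ k q.out * ψ l q.out)) + η := by
  set A := (∑ k ∈ S, ∑ l ∈ S, c k * c l *
        (hw (τ k) (τ l) * avR U fun q => ψ k q.out * ψ l q.out)) with hAdef
  have hbd : ∀ k ∈ S, ∃ M : ℝ, 0 < M ∧ ∀ g, |ψ k g| ≤ M := fun k hk => (hψ k hk).bdd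
  choose! M hM0 hM using hbd
  have hb : ∀ k ∈ S, ∀ v, |ψ k (σ v) * cz (τ k) v| ≤ M k := by
    intro k hk v
    rw [abs_mul]
    calc _ ≤ M k * 1 := mul_le_mul (hM k hk _) (abs_cz _ _) (abs_nonneg _) (hM0 k hk).le
      _ = _ := mul_one _
  have h1 := SzH.sum S hY hT hb c
  obtain ⟨⟨B, hB⟩, hlim⟩ := has_sq hU σ hσ S hψ τ c
  have hlim' : Tendsto (fun ε : ℝ => (EP (nm K) ε fun v => (∑ k ∈ S, c k *
      (ψ k (σ v) * cz (τ k) v)) ^ 2) / lam ε) (𝓝[>] 0) (𝓝 A) := hlim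
  have hA0 : 0 ≤ A := by
    refine ge_of_tendsto hlim' ?_
    filter_upwards [lam_tendsto.eventually_gt_atTop 0] with ε hε
    refine div_nonneg ?_ hε.le
    exact (sysK K).E_nonneg (ε := ε) fun v => sq_nonneg _
  refine sq_lim hβ hA0 (fun γ hγ η' hη' => ?_) hη
  obtain ⟨B1, hB1⟩ : ∃ B1 : ℝ, ∀ v, |∑ k ∈ S, c k * (ψ k (σ v) * cz (τ k) v)| ≤ B1 :=
    ⟨∑ k ∈ S, |c k| * M k, fun v => (Finset.abs_sum_le_sum_abs _ _).trans
      (Finset.sum_le_sum fun k hk => by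
        rw [abs_mul]
        exact mul_le_mul_of_nonneg_left (hb k hk v) (abs_nonneg _))⟩
  refine size_le_G (G := fun y => y ^ 2 / (2 * γ)) hT hB1 h1 hsec hγ.le
    (B' := B / (2 * γ)) (fun v => ?_) (fun t y _ => amgm hγ t y) (fun η'' hη'' => ?_) hη'
  · rw [abs_div, abs_of_pos (by positivity : 0 < 2 * γ)]
    exact div_le_div_of_nonneg_right (hB v) (by positivity)
  · have h5 := hlim'.const_mul (1 / (2 * γ))
    have h6 : 1 / (2 * γ) * A < A / (2 * γ) + η'' := by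
      rw [one_div, inv_mul_eq_div]
      linarith
    refine (h5.eventually_lt_const h6).mono fun ε hε => le_trans (le_of_eq ?_) hε.le
    rw [← mul_div_assoc, ← EP_const_mul]
    congr 2
    funext v
    ring

omit [NumberField K] in
/-- the mean number of fixed points is the number of the orbits -/
theorem avR_fix [U.Normal] [Finite (GK K ⧸ U)] {Y : Type} [Finite Y] (a : GK K →* Equiv.Perm Y)
    (hker : ∀ u ∈ U, a u = 1) (r : Setoid Y) (hr : ∀ x y, r x y ↔ ∃ g, a g x = y) :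
    avR U (fun q => ((Nat.card {y // a q.out y = y} : ℕ) : ℝ)) = Nat.card (Quotient r) := by
  have h1 : ∀ q : GK K ⧸ U, QuotientGroup.lift U a hker q = a q.out := by
    intro q
    conv_lhs => rw [← QuotientGroup.out_eq' q]
    rfl
  have h2 := burnside_orbits (QuotientGroup.lift U a hker) r (fun x y => by
    rw [hr]
    constructor
    · rintro ⟨g, hg⟩
      exact ⟨QuotientGroup.mk g, hg⟩
    · rintro ⟨q, hq⟩
      exact ⟨q.out, by rw [← h1]; exact hq⟩)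
  unfold avR
  have h3 : (∑ᶠ q : GK K ⧸ U, ((Nat.card {y // a q.out y = y} : ℕ) : ℝ)) =
      ∑ᶠ q : GK K ⧸ U, ((Nat.card {y // QuotientGroup.lift U a hker q y = y} : ℕ) : ℝ) :=
    finsum_congr fun q => by rw [h1]
  rw [h3, h2]
  have h4 : (Nat.card (GK K ⧸ U) : ℝ) ≠ 0 := by exact_mod_cast Nat.card_pos.ne'
  field_simp

end

/-- **Bessel's inequality in the limit.** -/
theorem bessel_lim {ι : Type} [Fintype ι] {l : Filter ℝ} {Y : ι → ℝ → ℝ} {u : ι → ℝ} {N : ℝ}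
    (hu : ∀ k, 0 ≤ u k) (hN : 0 ≤ N)
    (h : ∀ c : ι → ℝ, ∀ η : ℝ, 0 < η → ∀ᶠ ε in l, (∑ k, c k * Y k ε) ^ 2 ≤
      N * ∑ k, u k * c k ^ 2 + η) {η : ℝ} (hη : 0 < η) :
    ∀ᶠ ε in l, ∑ k, Y k ε ^ 2 / u k ≤ N + η := by
  by_contra hcon
  have hcon' : ∃ᶠ ε in l, N + η < ∑ k, Y k ε ^ 2 / u k := by
    rw [Filter.not_eventually] at hcon
    exact hcon.mono fun ε hε => not_le.1 hε
  have hne : (l ⊓ 𝓟 {ε | N + η < ∑ k, Y k ε ^ 2 / u k}).NeBot :=
    Filter.frequently_mem_iff_neBot.1 hcon'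
  obtain ⟨𝒰, h𝒰⟩ := Ultrafilter.exists_le (l ⊓ 𝓟 {ε | N + η < ∑ k, Y k ε ^ 2 / u k})
  have hl : (𝒰 : Filter ℝ) ≤ l := h𝒰.trans inf_le_left
  have hs : ∀ᶠ ε in (𝒰 : Filter ℝ), N + η < ∑ k, Y k ε ^ 2 / u k :=
    h𝒰.trans inf_le_right (Filter.mem_principal_self _)
  -- bounds
  set B : ℝ := ∑ k, (N * u k + 2) with hB
  have hbk : ∀ k, ∀ᶠ ε in l, |Y k ε| ≤ B := by
    intro k
    refine (h (Pi.single k 1) 1 one_pos).mono fun ε hε => ?_
    have e1 : ∑ j, (Pi.single k (1 : ℝ) : ι → ℝ) j * Y j ε = Y k ε := by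
      rw [Finset.sum_eq_single k]
      · rw [Pi.single_eq_same, one_mul]
      · intro j _ hj
        rw [Pi.single_eq_of_ne hj, zero_mul]
      · intro hk
        exact absurd (Finset.mem_univ k) hk
    have e2 : ∑ j, u j * (Pi.single k (1 : ℝ) : ι → ℝ) j ^ 2 = u k := by
      rw [Finset.sum_eq_single k]
      · rw [Pi.single_eq_same, one_pow, mul_one]
      · intro j _ hj
        rw [Pi.single_eq_of_ne hj]
        ring
      · intro hk
        exact absurd (Finset.mem_univ k) hk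
    rw [e1, e2] at hε
    have h1 : N * u k + 2 ≤ B :=
      Finset.single_le_sum (f := fun j => N * u j + 2) (fun j _ => by
        have := mul_nonneg hN (hu j)
        linarith) (Finset.mem_univ k)
    have h2 : 0 ≤ N * u k := mul_nonneg hN (hu k)
    have h3 : |Y k ε| ≤ N * u k + 2 := by
      refine abs_le_of_sq_le_sq ?_ (by linarith)
      nlinarith
    linarith
  have hball : ∀ᶠ ε in (𝒰 : Filter ℝ), (fun k => Y k ε) ∈ Set.pi Set.univ
      fun _ : ι => Set.Icc (-B) B := by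
    have := hl (Filter.eventually_all.2 hbk)
    filter_upwards [this] with ε hε
    intro k _
    exact abs_le.1 (hε k)
  have hcomp : IsCompact (Set.pi Set.univ fun _ : ι => Set.Icc (-B) B) :=
    isCompact_univ_pi fun _ => isCompact_Icc
  obtain ⟨y, -, hy⟩ := hcomp.ultrafilter_le_nhds (𝒰.map fun ε k => Y k ε)
    (Filter.le_principal_iff.2 hball)
  have hy' : Tendsto (fun ε k => Y k ε) (𝒰 : Filter ℝ) (𝓝 y) := hy
  have hyk : ∀ k, Tendsto (Y k) (𝒰 : Filter ℝ) (𝓝 (y k)) := fun k =>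
    (tendsto_pi_nhds.1 hy') k
  have hlim : ∀ c : ι → ℝ, (∑ k, c k * y k) ^ 2 ≤ N * ∑ k, u k * c k ^ 2 := by
    intro c
    refine le_of_forall_pos_le_add fun η' hη' => ?_
    have h1 : Tendsto (fun ε => (∑ k, c k * Y k ε) ^ 2) (𝒰 : Filter ℝ)
        (𝓝 ((∑ k, c k * y k) ^ 2)) :=
      (tendsto_finsetSum _ fun k _ => (hyk k).const_mul (c k)).pow 2
    exact le_of_tendsto h1 (hl (h c η' hη'))
  have h1 := hlim fun k => y k / u k
  have e1 : ∑ k, y k / u k * y k = ∑ k, y k ^ 2 / u k :=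
    Finset.sum_congr rfl fun k _ => by ring
  have e2 : ∑ k, u k * (y k / u k) ^ 2 = ∑ k, y k ^ 2 / u k := by
    refine Finset.sum_congr rfl fun k _ => ?_
    by_cases hk : u k = 0
    · rw [hk, div_zero, div_zero, zero_mul]
    · field_simp
  rw [e1, e2] at h1
  have h2 : ∑ k, y k ^ 2 / u k ≤ N := by
    by_contra h3
    push Not at h3
    nlinarith
  have h3 : Tendsto (fun ε => ∑ k, Y k ε ^ 2 / u k) (𝒰 : Filter ℝ)
      (𝓝 (∑ k, y k ^ 2 / u k)) :=
    tendsto_finsetSum _ fun k _ => ((hyk k).pow 2).div_const _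
  have h4 : N + η ≤ ∑ k, y k ^ 2 / u k := ge_of_tendsto h3 (hs.mono fun ε hε => hε.le)
  linarith

end Pool.Agent.V7H44.HF
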