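import Pool.Agent.X288.L2.Curve

/-! The second moment of a modular curve over a number field is at most `min([K : ℚ], 4)`. -/

set_option autoImplicit false
set_option linter.unusedSectionVars false
open Classical

namespace Pool.Agent.V7H44.HF

open Filter Topology NumberField
open Pool.Agent.W353.AB (syE)
open Pool.Agent.X288.L2
open Pool.Agent.Y722.EP (IsModular)

/-- `min([K : ℚ], 4)` -/
noncomputable def N4 (K : Type) [Field K] [NumberField K] : ℕ := min (Module.finrank ℚ K) 4

variable {K : Type} [Field K] [NumberField K]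

/-- the trivial bound for the second moment -/
theorem sec_four {T : Pool.Agent.W353.TP.HX K → ℝ} (hT : ∀ x, |T x| ≤ 2) : Sec T 4 := by
  obtain ⟨C, hC⟩ := (Pool.Agent.W353.TP.sysH K).lam_bounded
  refine ⟨4 * C, ?_⟩
  filter_upwards [hC, self_mem_nhdsWithin] with ε h1 h2
  have hε : (0 : ℝ) < ε := h2
  have hT2 : ∀ x, |T x ^ 2| ≤ 4 := by
    intro x
    rw [abs_pow]
    calc |T x| ^ 2 ≤ 2 ^ 2 := pow_le_pow_left₀ (abs_nonneg _) (hT x) 2
      _ = 4 := by norm_num
  have h3 := EH_mono hε (φ := fun x => T x ^ 2) (ψ := fun _ => 4) hT2 (B' := 4)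
    (fun _ => by norm_num) (fun x => (le_abs_self _).trans (hT2 x))
  have h4 : (Pool.Agent.W353.TP.sysH K).E ε (fun _ => (4 : ℝ)) =
      4 * (Pool.Agent.W353.TP.sysH K).lam ε := by
    unfold Pool.Agent.H341R2.NormSys.E Pool.Agent.H341R2.NormSys.lam
    rw [tsum_mul_left]
  have h5 : Pool.Agent.W353.TP.LL ε = -Real.log ε := by
    unfold Pool.Agent.W353.TP.LL
    rw [one_div, Real.log_inv]
  have h6 := (abs_le.1 h1).2
  rw [h5]
  refine (h3.trans (le_of_eq h4)).trans ?_
  linarith

/-- the second moment of a modular curve -/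
theorem sec_min {a b : ℤ} (hab : 4 * a ^ 3 + 27 * b ^ 2 ≠ 0) (hmod : IsModular a b) :
    Sec (Pool.Agent.W353.NF.TT (syE (PP K a) (QQ K b))) (N4 K : ℝ) := by
  unfold N4
  rcases le_total (Module.finrank ℚ K) 4 with h | h
  · rw [min_eq_left h]
    exact sec_curve hab hmod
  · rw [min_eq_right h]
    exact_mod_cast sec_four (abs_TT_le a b)

end Pool.Agent.V7H44.HF
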