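import Pool.Agent.V7H44.HF.Disj
import Pool.Agent.V7H44.HF.Min

/-! The L-functions of a modular elliptic curve over pairwise linearly disjoint extensions of a number
field: Bessel's inequality for the orders on the edge of absolute convergence. -/

set_option autoImplicit false
open Classical

namespace Pool.Agent.V7H44.HF

open Complex Filter Topology ComplexConjugate NumberField IsDedekindDomain Asymptotics
  Pool.Agent.W401.Cheb Pool.Agent.W540.BE Pool.Agent.W353.L1 Pool.Agent.W353.NF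
open Pool.Agent.W353.TP (HX sysH LL LL_tendsto)
open Pool.Agent.W353.AB (Sy syE)
open Pool.Agent.H341R2 (lam lam_tendsto sysK)
open Pool.Agent.TH322.BC
open Pool.Agent.TH322.BC.Edge (TwistOver MinimalModels LSeries size HasOrder LimsupLE character
  character_eq orders lim_abs_le size_twist size_base coe_ne)
open Pool.Agent.Y722.EP (IsModular)
open Pool.Agent.X288.L2
open scoped TensorProduct

section
variable {K : Type} [Field K] [NumberField K]

omit [NumberField K] in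
theorem P_eqK (a b : ℤ) : ((PP K a : 𝓞 K) : K) = (((1 : 𝓞 K)) : K) ^ 4 * (EC K a b).c₄ := by
  have h1 : ((PP K a : 𝓞 K) : K) = ((-48 * a : ℤ) : K) := by
    unfold PP
    exact map_intCast (algebraMap (𝓞 K) K) _
  have h2 : ((1 : 𝓞 K) : K) = 1 := map_one (algebraMap (𝓞 K) K)
  rw [h1, EC_c4, h2, one_pow, one_mul]

omit [NumberField K] in
theorem Q_eqK (a b : ℤ) : ((QQ K b : 𝓞 K) : K) = (((1 : 𝓞 K)) : K) ^ 6 * (EC K a b).c₆ := by
  have h1 : ((QQ K b : 𝓞 K) : K) = ((-864 * b : ℤ) : K) := by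
    unfold QQ
    exact map_intCast (algebraMap (𝓞 K) K) _
  have h2 : ((1 : 𝓞 K) : K) = 1 := map_one (algebraMap (𝓞 K) K)
  rw [h1, EC_c6, h2, one_pow, one_mul]

omit [NumberField K] in
theorem EC_map (F : Type) [Field F] [Algebra K F] (a b : ℤ) :
    (EC K a b).map (algebraMap K F) = EC F a b := by
  ext <;> simp [EC, WeierstrassCurve.map]

variable {a b : ℤ} (hab : 4 * a ^ 3 + 27 * b ^ 2 ≠ 0)

include hab in
theorem base_all {F : Type} [Field F] [NumberField F] [Algebra K F]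
    {V : HeightOneSpectrum (𝓞 F) → WeierstrassCurve (𝓞 F)} (hV : MinimalModels (EC F a b) V)
    (τ : ℝ) :
    (∀ᶠ ε : ℝ in 𝓝[>] 0, LSeries V (3 / 2 + τ * Complex.I + ε) ≠ 0) ∧
    ∀ σ : HeightOneSpectrum (𝓞 K) → GK K, (∀ v, IsFrob v (σ v)) →
      SzH (Pool.Agent.W353.NF.TT (syE (PP K a) (QQ K b)))
        (fun v => (fixn K F (σ v) : ℝ) * cz τ v) (size V τ) := by
  rw [← EC_map (K := K) F a b] at hV
  have s1 := size_base one_ne_zero (P_eqK a b) (Q_eqK a b) (PQ_ne hab) hV τ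
  refine ⟨s1.1, fun σ hσ => ?_⟩
  have z1 : SzH (Pool.Agent.W353.NF.TT (syE (PP K a) (QQ K b)))
      (fun v => (chi K (((1 : 𝓞 F) : F)) (σ v) : ℝ) * cz τ v) (size V τ) :=
    size_chi _ (syE_real _ _) one_ne_zero (Pool.Agent.TH322.BC.Edge.syE_D _ _ _) σ hσ s1.2
  exact z1.congr (fun v => by rw [chi_one']; push_cast; rfl) (fun ε => rfl)

include hab in
theorem diff_all {F : Type} [Field F] [NumberField F] [Algebra K F]
    {V₀ : HeightOneSpectrum (𝓞 K) → WeierstrassCurve (𝓞 K)} (hV₀ : MinimalModels (EC K a b) V₀)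
    {V : HeightOneSpectrum (𝓞 F) → WeierstrassCurve (𝓞 F)} (hV : MinimalModels (EC F a b) V)
    (τ : ℝ) {σ : HeightOneSpectrum (𝓞 K) → GK K} (hσ : ∀ v, IsFrob v (σ v)) :
    SzH (Pool.Agent.W353.NF.TT (syE (PP K a) (QQ K b)))
      (fun v => psi K F (σ v) * cz τ v) (fun ε => size V τ ε - size V₀ τ ε) := by
  have z1 := (base_all (K := K) hab hV τ).2 σ hσ
  have z0 := (base_all (K := K) hab hV₀ τ).2 σ hσ
  have hb1 : ∀ v, |(fixn K F (σ v) : ℝ) * cz τ v| ≤ (Module.finrank ℚ F : ℝ) := by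
    intro v
    rw [abs_mul]
    calc _ ≤ (Module.finrank ℚ F : ℝ) * 1 := mul_le_mul (by
            rw [abs_of_nonneg (Nat.cast_nonneg _)]
            exact fixn_le (σ v)) (abs_cz _ _) (abs_nonneg _) (Nat.cast_nonneg _)
      _ = _ := mul_one _
  have hb0 : ∀ v, |(-1 : ℝ) * ((fixn K K (σ v) : ℝ) * cz τ v)| ≤ (Module.finrank ℚ K : ℝ) := by
    intro v
    rw [abs_mul, abs_mul, abs_neg, abs_one, one_mul]
    calc _ ≤ (Module.finrank ℚ K : ℝ) * 1 := mul_le_mul (by
            rw [abs_of_nonneg (Nat.cast_nonneg _)]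
            exact fixn_le (σ v)) (abs_cz _ _) (abs_nonneg _) (Nat.cast_nonneg _)
      _ = _ := mul_one _
  refine (z1.add (z0.const_mul (-1)) (abs_TT_le a b) hb1 hb0).congr (fun v => ?_) (fun ε => ?_)
  · unfold psi
    rw [fixn_self]
    push_cast
    ring
  · ring

/-- the class functions of the family -/
noncomputable def psiO (K : Type) [Field K] [NumberField K] {ι : Type} (L : ι → Type)
    [∀ j, Field (L j)] [∀ j, NumberField (L j)] [∀ j, Algebra K (L j)] :
    Option ι → GK K → ℝ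
  | none => fun _ => 1
  | some j => psi K (L j)

/-- the squares of their norms -/
noncomputable def rO (K : Type) [Field K] [NumberField K] {ι : Type} (L : ι → Type)
    [∀ j, Field (L j)] [∀ j, NumberField (L j)] [∀ j, Algebra K (L j)] :
    Option ι → ℝ
  | none => 1
  | some j => (pairOrbits K (L j) : ℝ) - 1

/-- the sizes of the family -/
noncomputable def szO {ι : Type} {L : ι → Type}
    [∀ j, Field (L j)] [∀ j, NumberField (L j)]
    (V₀ : HeightOneSpectrum (𝓞 K) → WeierstrassCurve (𝓞 K))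
    (V : ∀ j, HeightOneSpectrum (𝓞 (L j)) → WeierstrassCurve (𝓞 (L j))) (τ : ℝ) :
    Option ι → ℝ → ℝ
  | none => size V₀ τ
  | some j => fun ε => size (V j) τ ε - size V₀ τ ε

theorem rO_nonneg {ι : Type} (L : ι → Type) [∀ j, Field (L j)] [∀ j, NumberField (L j)]
    [∀ j, Algebra K (L j)] (o : Option ι) : 0 ≤ rO K L o := by
  rcases o with _ | j
  · exact zero_le_one
  · have h := pairOrbits_pos K (L j)
    have h1 : (1 : ℝ) ≤ pairOrbits K (L j) := by exact_mod_cast h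
    show 0 ≤ (pairOrbits K (L j) : ℝ) - 1
    linarith

omit [NumberField K] in
theorem one_cls (U : Subgroup (GK K)) : Cls U (fun _ => (1 : ℝ)) :=
  ⟨fun _ _ _ => rfl, fun _ _ => rfl, fun _ => rfl⟩

theorem hw_ne {s t : ℝ} (hs : 0 ≤ s) (ht : 0 ≤ t) (h : s ≠ t) : hw s t = 0 := by
  unfold hw
  rw [if_neg h, if_neg (by
    intro h'
    apply h
    linarith)]
  norm_num

theorem hw_self_pos (s : ℝ) : 0 < hw s s := by
  rw [hw_self]
  split_ifs <;> norm_num

/-- orthogonality -/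
theorem psiO_mul {U : Subgroup (GK K)} [U.Normal] [Finite (GK K ⧸ U)] {ι : Type} (L : ι → Type)
    [∀ j, Field (L j)] [∀ j, NumberField (L j)] [∀ j, Algebra K (L j)]
    (hU : ∀ j, ∀ u ∈ U, act K (L j) u = 1)
    (hdisj : ∀ j k, j ≠ k → IsField (L j ⊗[K] L k)) (o o' : Option ι) :
    avR U (fun q => psiO K L o q.out * psiO K L o' q.out) = if o = o' then rO K L o else 0 := by
  rcases o with _ | j <;> rcases o' with _ | k
  · rw [if_pos rfl]
    have e : (fun q : GK K ⧸ U => psiO K L none q.out * psiO K L none q.out) = fun _ => 1 := by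
      funext q
      exact one_mul 1
    rw [e, avR_one]
    rfl
  · rw [if_neg (by simp)]
    have e : (fun q : GK K ⧸ U => psiO K L none q.out * psiO K L (some k) q.out) =
        fun q => psi K (L k) q.out := by
      funext q
      exact one_mul _
    rw [e, avR_psi (hU k)]
  · rw [if_neg (by simp)]
    have e : (fun q : GK K ⧸ U => psiO K L (some j) q.out * psiO K L none q.out) =
        fun q => psi K (L j) q.out := by
      funext q
      exact mul_one _
    rw [e, avR_psi (hU j)]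
  · by_cases h : j = k
    · subst h
      rw [if_pos rfl]
      exact avR_psi_sq (hU j)
    · rw [if_neg (by simpa using h)]
      exact avR_psi_mul (hU j) (hU k) (hdisj j k h)

variable (hmod : IsModular a b)

include hab hmod in
/-- **Bessel's inequality for the sizes.** -/
theorem bessel_sizes {ι : Type} [Fintype ι] (L : ι → Type)
    [∀ j, Field (L j)] [∀ j, NumberField (L j)] [∀ j, Algebra K (L j)]
    {V₀ : HeightOneSpectrum (𝓞 K) → WeierstrassCurve (𝓞 K)} (hV₀ : MinimalModels (EC K a b) V₀)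
    {V : ∀ j, HeightOneSpectrum (𝓞 (L j)) → WeierstrassCurve (𝓞 (L j))}
    (hV : ∀ j, MinimalModels (EC (L j) a b) (V j))
    (hdisj : ∀ j k, j ≠ k → IsField (L j ⊗[K] L k))
    (H : Finset ℝ) (hH : ∀ τ ∈ H, 0 ≤ τ) {η : ℝ} (hη : 0 < η) :
    ∀ᶠ ε : ℝ in 𝓝[>] 0, ∑ τ ∈ H, ∑ o : Option ι, szO V₀ V τ o ε ^ 2 / (hw τ τ * rO K L o) ≤
      (N4 K : ℝ) + η := by
  set U : Subgroup (GK K) := ⨅ j, (act K (L j)).ker with hUdef
  have hUo : IsOpen (U : Set (GK K)) := by
    rw [hUdef, Subgroup.coe_iInf]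
    exact isOpen_iInter_of_finite fun j => ker_act_open K (L j)
  have hUn : U.Normal := Subgroup.normal_iInf_normal fun j => inferInstance
  have hfin : Finite (GK K ⧸ U) := Subgroup.quotient_finite_of_isOpen _ hUo
  have hUk : ∀ j, ∀ u ∈ U, act K (L j) u = 1 := by
    intro j u hu
    rw [hUdef, Subgroup.mem_iInf] at hu
    exact MonoidHom.mem_ker.1 (hu j)
  choose σ hσ using exists_isFrob (F := K)
  have hsec := sec_min (K := K) hab hmod
  have hcls : ∀ k ∈ (Finset.univ : Finset (Option ι × H)), Cls U (psiO K L k.1) := by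
    rintro ⟨o, t⟩ -
    rcases o with _ | j
    · exact one_cls U
    · exact psi_cls (hUk j)
  have hsz : ∀ k ∈ (Finset.univ : Finset (Option ι × H)),
      SzH (Pool.Agent.W353.NF.TT (syE (PP K a) (QQ K b)))
        (fun v => psiO K L k.1 (σ v) * cz (k.2 : ℝ) v) (szO V₀ V (k.2 : ℝ) k.1) := by
    rintro ⟨o, t⟩ -
    rcases o with _ | j
    · refine ((base_all (K := K) hab hV₀ (t : ℝ)).2 σ hσ).congr (fun v => ?_) (fun ε => rfl)
      rw [fixn_self]
      push_cast
      rfl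
    · exact diff_all hab hV₀ (hV j) (t : ℝ) hσ
  have key := bessel_lim (ι := Option ι × H) (l := 𝓝[>] (0 : ℝ))
    (Y := fun k => szO V₀ V (k.2 : ℝ) k.1)
    (u := fun k => hw (k.2 : ℝ) (k.2 : ℝ) * rO K L k.1) (N := (N4 K : ℝ))
    (fun k => mul_nonneg (hw_self_pos _).le (rO_nonneg L k.1)) (Nat.cast_nonneg _)
    (fun c η' hη' => by
      have h1 := gen_ineq hUo (abs_TT_le a b) hσ Finset.univ hcls (fun k => (k.2 : ℝ)) hsz
        (Nat.cast_nonneg _) hsec c hη'
      refine h1.mono fun ε hε => hε.trans (le_of_eq ?_)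
      congr 2
      refine Finset.sum_congr rfl fun k _ => ?_
      rw [Finset.sum_eq_single k]
      · rw [psiO_mul L hUk hdisj, if_pos rfl]
        ring
      · intro l _ hl
        rw [psiO_mul L hUk hdisj]
        by_cases h2 : k.1 = l.1
        · have h3 : (k.2 : ℝ) ≠ (l.2 : ℝ) := by
            intro h4
            exact hl (Prod.ext h2.symm (Subtype.ext h4.symm))
          rw [hw_ne (hH _ k.2.2) (hH _ l.2.2) h3]
          ring
        · rw [if_neg h2]
          ring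
      · intro hk
        exact absurd (Finset.mem_univ k) hk) hη
  refine key.mono fun ε hε => le_trans (le_of_eq ?_) hε
  rw [Fintype.sum_prod_type_right]
  exact (Finset.sum_coe_sort H (fun τ => ∑ o : Option ι,
    szO V₀ V τ o ε ^ 2 / (hw τ τ * rO K L o))).symm

include hab hmod in
/-- **Bessel's inequality for the orders.** -/
theorem bessel_orders {ι : Type} [Fintype ι] (L : ι → Type)
    [∀ j, Field (L j)] [∀ j, NumberField (L j)] [∀ j, Algebra K (L j)]
    {V₀ : HeightOneSpectrum (𝓞 K) → WeierstrassCurve (𝓞 K)} (hV₀ : MinimalModels (EC K a b) V₀)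
    {V : ∀ j, HeightOneSpectrum (𝓞 (L j)) → WeierstrassCurve (𝓞 (L j))}
    (hV : ∀ j, MinimalModels (EC (L j) a b) (V j))
    (hdisj : ∀ j k, j ≠ k → IsField (L j ⊗[K] L k))
    (T : Finset ℝ) (S : Finset (ι × ℝ)) (hT : ∀ τ ∈ T, 0 ≤ τ) (hS : ∀ z ∈ S, 0 ≤ z.2)
    (m₀ : ℝ → ℤ) (m : ι × ℝ → ℤ) (hm₀ : ∀ τ ∈ T, HasOrder V₀ τ (m₀ τ))
    (hm : ∀ z ∈ S, HasOrder V₀ z.2 (m₀ z.2) ∧ HasOrder (V z.1) z.2 (m z)) :
    ∑ τ ∈ T, (m₀ τ : ℝ) ^ 2 / hw τ τ +
      ∑ z ∈ S, ((m z : ℝ) - m₀ z.2) ^ 2 / (hw z.2 z.2 * ((pairOrbits K (L z.1) : ℝ) - 1)) ≤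
      N4 K := by
  set H : Finset ℝ := T ∪ S.image Prod.snd with hHdef
  have hH : ∀ τ ∈ H, 0 ≤ τ := by
    intro τ hτ
    rw [hHdef, Finset.mem_union, Finset.mem_image] at hτ
    rcases hτ with h | ⟨z, hz, rfl⟩
    · exact hT τ h
    · exact hS z hz
  refine le_of_forall_pos_le_add fun η hη => ?_
  have h1 := bessel_sizes hab hmod L hV₀ hV hdisj H hH hη
  have hnn : ∀ (τ ε : ℝ) (o : Option ι), 0 ≤ szO V₀ V τ o ε ^ 2 / (hw τ τ * rO K L o) :=
    fun τ ε o => div_nonneg (sq_nonneg _) (mul_nonneg (hw_self_pos _).le (rO_nonneg L o))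
  have h2 : ∀ᶠ ε : ℝ in 𝓝[>] 0, ∑ τ ∈ T, size V₀ τ ε ^ 2 / hw τ τ +
      ∑ z ∈ S, (size (V z.1) z.2 ε - size V₀ z.2 ε) ^ 2 /
        (hw z.2 z.2 * ((pairOrbits K (L z.1) : ℝ) - 1)) ≤ (N4 K : ℝ) + η := by
    refine h1.mono fun ε hε => le_trans ?_ hε
    have e1 : ∑ τ ∈ H, ∑ o : Option ι, szO V₀ V τ o ε ^ 2 / (hw τ τ * rO K L o) =
        ∑ τ ∈ H, size V₀ τ ε ^ 2 / hw τ τ +
          ∑ z ∈ (Finset.univ : Finset ι) ×ˢ H, (size (V z.1) z.2 ε - size V₀ z.2 ε) ^ 2 /
            (hw z.2 z.2 * ((pairOrbits K (L z.1) : ℝ) - 1)) := by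
      rw [Finset.sum_product_right, ← Finset.sum_add_distrib]
      refine Finset.sum_congr rfl fun τ _ => ?_
      rw [Fintype.sum_option]
      congr 1
      show size V₀ τ ε ^ 2 / (hw τ τ * 1) = _
      rw [mul_one]
    rw [e1]
    refine add_le_add ?_ ?_
    · exact Finset.sum_le_sum_of_subset_of_nonneg Finset.subset_union_left
        fun τ _ _ => div_nonneg (sq_nonneg _) (hw_self_pos _).le
    · refine Finset.sum_le_sum_of_subset_of_nonneg ?_ fun z _ _ => ?_
      · intro z hz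
        rw [Finset.mem_product]
        exact ⟨Finset.mem_univ _, Finset.mem_union_right _ (Finset.mem_image_of_mem _ hz)⟩
      · exact div_nonneg (sq_nonneg _) (mul_nonneg (hw_self_pos _).le (rO_nonneg L (some z.1)))
  have h3 : Tendsto (fun ε => ∑ τ ∈ T, size V₀ τ ε ^ 2 / hw τ τ +
      ∑ z ∈ S, (size (V z.1) z.2 ε - size V₀ z.2 ε) ^ 2 /
        (hw z.2 z.2 * ((pairOrbits K (L z.1) : ℝ) - 1))) (𝓝[>] 0)
      (𝓝 (∑ τ ∈ T, (-(m₀ τ : ℝ)) ^ 2 / hw τ τ +
      ∑ z ∈ S, (-(m z : ℝ) - -(m₀ z.2 : ℝ)) ^ 2 /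
        (hw z.2 z.2 * ((pairOrbits K (L z.1) : ℝ) - 1)))) := by
    refine Tendsto.add (tendsto_finsetSum _ fun τ hτ => ?_) (tendsto_finsetSum _ fun z hz => ?_)
    · exact ((orders (base_all (K := K) hab hV₀ τ).1 (hm₀ τ hτ)).pow 2).div_const _
    · exact (((orders (base_all (K := K) hab (hV z.1) z.2).1 (hm z hz).2).sub
        (orders (base_all (K := K) hab hV₀ z.2).1 (hm z hz).1)).pow 2).div_const _
  have h4 := le_of_tendsto h3 h2
  refine le_trans (le_of_eq ?_) h4
  congr 1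
  · refine Finset.sum_congr rfl fun τ _ => ?_
    rw [neg_sq]
  · refine Finset.sum_congr rfl fun z _ => ?_
    congr 1
    ring

end

end Pool.Agent.V7H44.HF
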